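import Pool.Agent.Run7.h251.SY.Few
import Pool.Agent.Run7.h18.MK.Arb4

/-! Common primes for systems; quadratic polynomials. -/

set_option autoImplicit false

namespace Run7.h251.SY

open Finset Filter Topology Polynomial
open Run7.h251.SP (top le_top top_le log_pow_le log_ge Sparse)

theorem good_mono {k D T W W' : ℕ} {δ : ℝ} {a : Fin k → ℕ} (hM : 3 ≤ top a) (hW : W ≤ W') (h : Good D T W' δ a) :
    Good D T W δ a := by
  obtain ⟨z, h1, h2, h3⟩ := h
  have hM3 : (3 : ℝ) ≤ top a := by exact_mod_cast hM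
  have h5 : 1 ≤ Real.log (top a) := by
    rw [Real.le_log_iff_exp_le (by linarith)]
    exact Real.exp_one_lt_d9.le.trans (by linarith)
  have h6 : Real.log (top a) ^ W ≤ Real.log (top a) ^ W' := pow_le_pow_right₀ h5 hW
  refine ⟨z, h6.trans h1, h2, fun f hf => ⟨(h3 f hf).1, fun y y' hw => ?_⟩⟩
  obtain ⟨g1, g2⟩ := (h3 f hf).2 y y' hw
  refine ⟨g1, g2.trans ?_⟩
  exact div_le_div_of_nonneg_left (Nat.cast_nonneg _) (by positivity) h6

/-- a good tuple without fixed prime divisor has a common prime in every window -/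
theorem exists_common {k D T W : ℕ} (hk : 1 ≤ k) {δ : ℝ} {a : Fin k → ℕ} (hM : 3 ≤ top a)
    (hg : Good D T (W + k * D + 4) δ a) {f : Fin k → ℤ[X]} (hf : Sys D T (top a) f) (hfix : NoFixed f a) {y y' : ℕ}
    (hw : Win δ (top a) y y' f) (hlen : (y' : ℝ) / Real.log (top a) ^ W ≤ (y' : ℝ) - y) :
    ∃ p ∈ Ioc y y', p.Prime ∧ ∀ i, ((a i : ℤ) + (f i).eval (p : ℤ)).toNat.Prime := by
  obtain ⟨z, -, -, h3⟩ := hg
  obtain ⟨h4, h5⟩ := h3 f hf
  have h4 := h4 hfix
  obtain ⟨-, h5⟩ := h5 y y' hw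
  have hM3 : (3 : ℝ) ≤ top a := by exact_mod_cast hM
  have hL1 : 1 < Real.log (top a) := by
    rw [Real.lt_log_iff_exp_lt (by linarith)]
    exact Real.exp_one_lt_d9.trans (by linarith)
  obtain ⟨L, hL⟩ : ∃ L, L = Real.log (top a) := ⟨_, rfl⟩
  obtain ⟨i₀⟩ : Nonempty (Fin k) := ⟨⟨0, by omega⟩⟩
  have hy0 : (0 : ℝ) < y' := by
    have h1 := (hw.2 i₀).1
    rcases Nat.eq_zero_or_pos y' with h | h
    · exfalso
      rw [h, Nat.cast_zero, zero_pow (by have := (hf i₀).1; omega)] at h1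
      have : (0 : ℝ) < ((top a : ℕ) : ℝ) ^ (1 / 3 + δ) := by positivity
      linarith
    · exact_mod_cast h
  rw [← hL] at hL1 h4 h5 hlen
  have hL0 : 0 < L := by linarith
  have hcount : 0 < count f a y y' := by
    have h6 := (abs_le.1 h5).1
    have h7 : (1 / L ^ (k * D + 3)) * (y' / L ^ W) ≤ dens f a z * ((y' : ℝ) - y) :=
      mul_le_mul h4 hlen (by positivity) (le_trans (by positivity) h4)
    have h8 : (y' : ℝ) / L ^ (W + k * D + 4) < (1 / L ^ (k * D + 3)) * (y' / L ^ W) := by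
      have e : (1 / L ^ (k * D + 3)) * ((y' : ℝ) / L ^ W) = y' / L ^ (W + k * D + 3) := by
        have : L ^ (W + k * D + 3) = L ^ (k * D + 3) * L ^ W := by ring
        rw [this]
        field_simp
      rw [e]
      apply div_lt_div_of_pos_left hy0 (by positivity)
      exact pow_lt_pow_right₀ hL1 (by omega)
    linarith
  by_contra hcon
  push Not at hcon
  have : count f a y y' = 0 := by
    unfold count
    rw [filter_eq_empty_iff.2, sum_empty]
    rintro p hp ⟨hp1, hp2⟩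
    obtain ⟨i, hi⟩ := hcon p hp hp1
    exact hi (hp2 i)
  linarith

/-- the polynomial `-(X ^ 2 + b X + c)` -/
noncomputable def quad (b c : ℤ) : ℤ[X] := Polynomial.C (-1) * X ^ 2 + Polynomial.C (-b) * X + Polynomial.C (-c)

theorem quad_deg (b c : ℤ) : (quad b c).natDegree = 2 := by
  unfold quad
  exact natDegree_quadratic (by norm_num)

theorem quad_eval (b c m : ℤ) : (quad b c).eval m = -(m ^ 2 + b * m + c) := by
  unfold quad
  simp
  ring

theorem quad_coeff (b c : ℤ) (H : ℝ) (hH : 1 ≤ H) (hb : |(b : ℝ)| ≤ H) (hc : |(c : ℝ)| ≤ H) (i : ℕ) :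
    |(((quad b c).coeff i : ℤ) : ℝ)| ≤ H := by
  rcases Nat.lt_or_ge i 3 with hi | hi
  · have h0 : (quad b c).coeff 0 = -c := by
      unfold quad; simp only [coeff_add, coeff_C_mul, coeff_X_pow, coeff_X, coeff_C]; norm_num
    have h1' : (quad b c).coeff 1 = -b := by
      unfold quad; simp only [coeff_add, coeff_C_mul, coeff_X_pow, coeff_X, coeff_C]; norm_num
    have h2' : (quad b c).coeff 2 = -1 := by
      unfold quad; simp only [coeff_add, coeff_C_mul, coeff_X_pow, coeff_X, coeff_C]; norm_num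
    interval_cases i
    · rw [h0, Int.cast_neg, abs_neg]
      exact hc
    · rw [h1', Int.cast_neg, abs_neg]
      exact hb
    · rw [h2', Int.cast_neg, abs_neg, Int.cast_one, abs_one]
      exact hH
  · rw [coeff_eq_zero_of_natDegree_lt (by rw [quad_deg]; omega), Int.cast_zero, abs_zero]
    linarith

theorem sys_quad {k D T M : ℕ} (hD : 2 ≤ D) (hM : 3 ≤ M) (b c : Fin k → ℤ)
    (h : ∀ i, |((b i : ℤ) : ℝ)| ≤ Real.log M ^ T ∧ |((c i : ℤ) : ℝ)| ≤ Real.log M ^ T) :
    Sys D T M (fun i => quad (b i) (c i)) := by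
  have hM3 : (3 : ℝ) ≤ M := by exact_mod_cast hM
  have h5 : 1 ≤ Real.log M := by
    rw [Real.le_log_iff_exp_le (by linarith)]
    exact Real.exp_one_lt_d9.le.trans (by linarith)
  intro i
  rw [quad_deg]
  exact ⟨by omega, hD, quad_coeff _ _ _ (one_le_pow₀ h5) (h i).1 (h i).2⟩

end Run7.h251.SY
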