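import Pool.Agent.Run7.h251.SP.Inp
import Pool.Agent.Run7.h251.SP.One

/-! Systems of polynomials at prime arguments in all windows, for almost all tuples of constant terms. -/

set_option autoImplicit false

namespace Run7.h251.SY

open Finset Filter Topology Polynomial
open Run7.h251.SP (top le_top top_le log_pow_le log_ge Sparse)

/-- the number of the residues `r` modulo `p` for which `p` divides the product of `r` and the `a i + f i (r)` -/
noncomputable def roots {k : ℕ} (f : Fin k → ℤ[X]) (a : Fin k → ℕ) (p : ℕ) : ℕ :=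
  ((range p).filter (fun r : ℕ => (p : ℤ) ∣ (r : ℤ) * ∏ i, ((a i : ℤ) + (f i).eval (r : ℤ)))).card

/-- the partial product of the local densities -/
noncomputable def dens {k : ℕ} (f : Fin k → ℤ[X]) (a : Fin k → ℕ) (z : ℕ) : ℝ :=
  ∏ p ∈ (Icc 1 z).filter Nat.Prime, (1 - (roots f a p : ℝ) / p) / (1 - 1 / (p : ℝ)) ^ (k + 1)

/-- the sum of `log p` times the product of the logarithms of the `a i + f i (p)`, over the primes `p` of `(y, y']` for
which all the `a i + f i (p)` are primes -/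
noncomputable def count {k : ℕ} (f : Fin k → ℤ[X]) (a : Fin k → ℕ) (y y' : ℕ) : ℝ :=
  ∑ p ∈ (Ioc y y').filter (fun p : ℕ => p.Prime ∧ ∀ i, ((a i : ℤ) + (f i).eval (p : ℤ)).toNat.Prime),
    Real.log p * ∏ i, Real.log (((a i : ℤ) + (f i).eval (p : ℤ) : ℤ) : ℝ)

/-- nonconstant polynomials of degree at most `d` with coefficients at most `(log M) ^ T` -/
def Sys {k : ℕ} (d T M : ℕ) (f : Fin k → ℤ[X]) : Prop :=
  ∀ i, 1 ≤ (f i).natDegree ∧ (f i).natDegree ≤ d ∧ ∀ j, |(((f i).coeff j : ℤ) : ℝ)| ≤ Real.log M ^ T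

/-- no prime divides all the values of `X` times the product of the `a i + f i (X)` -/
def NoFixed {k : ℕ} (f : Fin k → ℤ[X]) (a : Fin k → ℕ) : Prop :=
  ∀ p : ℕ, p.Prime → ∃ m : ℤ, ¬ (p : ℤ) ∣ m * ∏ i, ((a i : ℤ) + (f i).eval m)

/-- the windows -/
def Win {k : ℕ} (δ : ℝ) (M y y' : ℕ) (f : Fin k → ℤ[X]) : Prop :=
  y ≤ y' ∧ ∀ i, (M : ℝ) ^ (1 / 3 + δ) ≤ (y' : ℝ) ^ (f i).natDegree ∧ (y' : ℝ) ^ (f i).natDegree ≤ (M : ℝ) ^ (1 - δ)

/-- the asymptotic formula, for all systems and all windows -/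
def Good {k : ℕ} (d T W : ℕ) (δ : ℝ) (a : Fin k → ℕ) : Prop :=
  ∃ z : ℕ, Real.log (top a) ^ W ≤ z ∧ (z : ℝ) ≤ ((top a : ℕ) : ℝ) ^ δ ∧ ∀ f : Fin k → ℤ[X], Sys d T (top a) f →
    (NoFixed f a → 1 / Real.log (top a) ^ (k * d + 3) ≤ dens f a z) ∧
    ∀ y y' : ℕ, Win δ (top a) y y' f → (∀ i, ∀ m ∈ Icc 1 y', 1 ≤ (a i : ℤ) + (f i).eval (m : ℤ)) ∧
      |count f a y y' - dens f a z * ((y' : ℝ) - y)| ≤ y' / Real.log (top a) ^ W

theorem dens_eq {k : ℕ} (f : Fin k → ℤ[X]) (a : Fin k → ℕ) (z : ℕ) : dens f a z =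
    Pool.Agent.Run7.h18.MK.dens (X * Pool.Agent.Run7.h18.MK.gP f a) (k + 1) z := by
  have hroot : ∀ p : ℕ, roots f a p = Pool.Agent.H373R2.T7.nuB
      (Pool.Agent.Run7.h18.MK.Rt (X * Pool.Agent.Run7.h18.MK.gP f a) 0) p := by
    intro p
    unfold roots Pool.Agent.H373R2.T7.nuB Pool.Agent.Run7.h18.MK.Rt
    simp only [eval_mul, eval_X, Pool.Agent.Run7.h18.MK.gP_eval, zero_add]
  unfold dens Pool.Agent.Run7.h18.MK.dens Pool.Agent.H373R2.T7.Vz Pool.Agent.H373R2.T7.pz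
  rw [prod_div_distrib, prod_pow, div_eq_inv_mul, inv_pow]
  congr 1
  exact prod_congr rfl fun p _ => by rw [hroot]

theorem roots_lt {k : ℕ} (f : Fin k → ℤ[X]) (a : Fin k → ℕ) (p : ℕ) : roots f a p ≤ p := by
  unfold roots
  exact (card_filter_le _ _).trans (by rw [card_range])

theorem fac_nonneg {k : ℕ} (f : Fin k → ℤ[X]) (a : Fin k → ℕ) {p : ℕ} (hp : p.Prime) :
    0 ≤ (1 - (roots f a p : ℝ) / p) / (1 - 1 / (p : ℝ)) ^ (k + 1) := by
  have h2 : (2 : ℝ) ≤ p := by exact_mod_cast hp.two_le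
  have h1 : (roots f a p : ℝ) ≤ p := by exact_mod_cast roots_lt f a p
  apply div_nonneg
  · rw [sub_nonneg, div_le_one (by linarith)]
    exact h1
  · apply pow_nonneg
    rw [sub_nonneg, div_le_one (by linarith)]
    linarith

theorem dens_nonneg {k : ℕ} (f : Fin k → ℤ[X]) (a : Fin k → ℕ) (z : ℕ) : 0 ≤ dens f a z :=
  prod_nonneg fun _ hp => fac_nonneg f a (mem_filter.1 hp).2

theorem dens_le {k : ℕ} (f : Fin k → ℤ[X]) (a : Fin k → ℕ) (z : ℕ) :
    dens f a z ≤ (Pool.Agent.H373R2.T7.Vz z)⁻¹ ^ (k + 1) := by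
  have h1 : (Pool.Agent.H373R2.T7.Vz z)⁻¹ ^ (k + 1) =
      ∏ p ∈ (Icc 1 z).filter Nat.Prime, 1 / (1 - 1 / (p : ℝ)) ^ (k + 1) := by
    unfold Pool.Agent.H373R2.T7.Vz Pool.Agent.H373R2.T7.pz
    rw [prod_div_distrib, prod_const_one, prod_pow, inv_pow, one_div]
  rw [h1]
  unfold dens
  apply Finset.prod_le_prod
  · intro p hp
    exact fac_nonneg f a (mem_filter.1 hp).2
  · intro p hp
    have hpp := (mem_filter.1 hp).2
    have h2 : (2 : ℝ) ≤ p := by exact_mod_cast hpp.two_le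
    apply div_le_div_of_nonneg_right
    · have : (0 : ℝ) ≤ (roots f a p : ℝ) / p := by positivity
      linarith
    · apply pow_nonneg
      rw [sub_nonneg, div_le_one (by linarith)]
      linarith

theorem count_sub {k : ℕ} (f : Fin k → ℤ[X]) (a : Fin k → ℕ) {y y' : ℕ} (h : y ≤ y') :
    count f a y y' = count f a 0 y' - count f a 0 y := by
  unfold count
  rw [eq_sub_iff_add_eq, add_comm, ← sum_union]
  · congr 1
    ext p
    simp only [mem_filter, mem_Ioc, mem_union]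
    constructor
    · rintro (⟨h1, h2⟩ | ⟨h1, h2⟩)
      · exact ⟨⟨h1.1, by omega⟩, h2⟩
      · exact ⟨⟨by omega, h1.2⟩, h2⟩
    · rintro ⟨h1, h2⟩
      by_cases h3 : p ≤ y
      · exact Or.inl ⟨⟨h1.1, h3⟩, h2⟩
      · exact Or.inr ⟨⟨by omega, h1.2⟩, h2⟩
  · rw [disjoint_left]
    intro p h1 h2
    rw [mem_filter, mem_Ioc] at h1 h2
    omega

/-- the sum in terms of the weights of the library -/
theorem count_eq {k : ℕ} (f : Fin k → ℤ[X]) (a : Fin k → ℕ) (x : ℕ) :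
    count f a 0 x = ∑ m ∈ Icc 1 x, Pool.Agent.R460.SQ.thp m *
      ∏ i, Pool.Agent.R460.SQ.thp ((a i : ℤ) + (f i).eval (m : ℤ)).toNat := by
  unfold count
  have e0 : Ioc 0 x = Icc 1 x := by
    ext m
    rw [mem_Ioc, mem_Icc]
    omega
  rw [e0, sum_filter]
  refine sum_congr rfl fun m _ => ?_
  unfold Pool.Agent.R460.SQ.thp
  rw [prod_ite_zero]
  simp only [mem_univ, true_imp_iff]
  by_cases h7 : m.Prime
  · by_cases h8 : ∀ i, ((a i : ℤ) + (f i).eval (m : ℤ)).toNat.Prime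
    · rw [if_pos ⟨h7, h8⟩, if_pos h7, if_pos h8]
      congr 1
      refine prod_congr rfl fun i _ => ?_
      have h9 := (h8 i).pos
      have h6 : ((((a i : ℤ) + (f i).eval (m : ℤ)).toNat : ℕ) : ℝ) = (((a i : ℤ) + (f i).eval (m : ℤ) : ℤ) : ℝ) := by
        rw [← Int.cast_natCast, Int.toNat_of_nonneg (by omega)]
      rw [h6]
    · rw [if_neg (fun h => h8 h.2), if_neg h8, mul_zero]
  · rw [if_neg (fun h => h7 h.1), if_neg h7, zero_mul]

theorem count_nonneg {k : ℕ} (f : Fin k → ℤ[X]) (a : Fin k → ℕ) (y y' : ℕ) : 0 ≤ count f a y y' := by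
  unfold count
  refine sum_nonneg fun p hp => mul_nonneg (Real.log_natCast_nonneg _) (prod_nonneg fun i _ => ?_)
  have h1 := ((mem_filter.1 hp).2.2 i).pos
  apply Real.log_nonneg
  have : (1 : ℤ) ≤ (a i : ℤ) + (f i).eval (p : ℤ) := by omega
  exact_mod_cast this

/-- values of a polynomial of small height -/
theorem eval_le (g : ℤ[X]) (H : ℝ) (hH : ∀ j, |((g.coeff j : ℤ) : ℝ)| ≤ H) (m : ℕ) (hm : 1 ≤ m) :
    ((g.eval (m : ℤ) : ℤ) : ℝ) ≤ (g.natDegree + 1) * H * (m : ℝ) ^ g.natDegree := by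
  have hm1 : (1 : ℝ) ≤ m := by exact_mod_cast hm
  rw [eval_eq_sum_range]
  push_cast
  calc ∑ i ∈ range (g.natDegree + 1), ((g.coeff i : ℤ) : ℝ) * (m : ℝ) ^ i ≤
      ∑ _i ∈ range (g.natDegree + 1), H * (m : ℝ) ^ g.natDegree := by
        refine sum_le_sum fun i hi => ?_
        rw [mem_range] at hi
        have h1 := (le_abs_self _).trans (hH i)
        have h0 : 0 ≤ H := (abs_nonneg _).trans (hH i)
        exact mul_le_mul h1 (pow_le_pow_right₀ hm1 (by omega)) (by positivity) h0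
    _ = _ := by
        rw [sum_const, card_range, nsmul_eq_mul]
        push_cast
        ring

theorem count_le {k : ℕ} (f : Fin k → ℤ[X]) (a : Fin k → ℕ) (x : ℕ) (K : ℝ) (hK : 0 ≤ K)
    (h0 : ∀ m ∈ Icc 1 x, Real.log m ≤ K)
    (h : ∀ i, ∀ m ∈ Icc 1 x, 1 ≤ (a i : ℤ) + (f i).eval (m : ℤ) →
      Real.log (((a i : ℤ) + (f i).eval (m : ℤ) : ℤ) : ℝ) ≤ K) :
    count f a 0 x ≤ x * K ^ (k + 1) := by
  unfold count
  calc _ ≤ ∑ _p ∈ (Ioc 0 x).filter (fun p : ℕ => p.Prime ∧ ∀ i, ((a i : ℤ) + (f i).eval (p : ℤ)).toNat.Prime),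
        K ^ (k + 1) := by
        refine sum_le_sum fun p hp => ?_
        rw [mem_filter, mem_Ioc] at hp
        have hp1 : ∀ i, 1 ≤ (a i : ℤ) + (f i).eval (p : ℤ) := fun i => by
          have := (hp.2.2 i).pos
          omega
        have hpm : p ∈ Icc 1 x := mem_Icc.2 ⟨by omega, hp.1.2⟩
        have hnn : ∀ i, 0 ≤ Real.log (((a i : ℤ) + (f i).eval (p : ℤ) : ℤ) : ℝ) := fun i =>
          Real.log_nonneg (by exact_mod_cast hp1 i)
        rw [pow_succ']
        apply mul_le_mul (h0 p hpm) _ (prod_nonneg fun i _ => hnn i) hK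
        calc ∏ i, Real.log (((a i : ℤ) + (f i).eval (p : ℤ) : ℤ) : ℝ) ≤ ∏ _i : Fin k, K := by
              apply Finset.prod_le_prod (fun i _ => hnn i)
              intro i _
              exact h i p hpm (hp1 i)
          _ = _ := by rw [prod_const, card_univ, Fintype.card_fin]
    _ ≤ _ := by
        rw [sum_const, nsmul_eq_mul]
        apply mul_le_mul_of_nonneg_right _ (by positivity)
        have := card_filter_le (Ioc 0 x) (fun p : ℕ => p.Prime ∧ ∀ i, ((a i : ℤ) + (f i).eval (p : ℤ)).toNat.Prime)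
        rw [Nat.card_Ioc] at this
        exact_mod_cast this

theorem few (k d T : ℕ) (hk : 1 ≤ k) (hd : 1 ≤ d) (δ : ℝ) (hδ : 0 < δ) (W U : ℕ) : ∃ N₀ : ℕ, ∀ N : ℕ, N₀ ≤ N →
    ∃ Ex : Finset (Fin k → ℕ), (Ex.card : ℝ) ≤ (N : ℝ) ^ k / Real.log N ^ (U + 1) ∧
    ∀ a ∈ Fintype.piFinset (fun _ : Fin k => Icc 1 N), a ∉ Ex →
      (N : ℝ) / Real.log N ^ (U + 1) ≤ top a → Good d T W δ a := by
  classical
  obtain ⟨V, hV⟩ : ∃ V, V = U + W + 1 := ⟨_, rfl⟩
  obtain ⟨C, B, hin⟩ := Pool.Agent.Run7.h18.MK.sysp_fin k d T V hk hd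
  obtain ⟨N₁, hin⟩ := hin (B + W + 2)
  obtain ⟨ε, hε⟩ : ∃ ε, ε = δ / (2 / 3 + 2 * δ) := ⟨_, rfl⟩
  have hε0 : 0 < ε := by rw [hε]; positivity
  have hεe : ε * (2 / 3 + 2 * δ) = δ := by rw [hε]; field_simp
  have hεh : ε ≤ 1 / 2 := by
    rw [hε, div_le_iff₀ (by positivity)]
    linarith
  have hd0 : (1 : ℝ) ≤ d := by exact_mod_cast hd
  obtain ⟨N₂, hl2⟩ := log_pow_le (U + 1) ε hε0
  obtain ⟨N₃, hl3⟩ := log_pow_le (C + 2 * (k + 1) + V) (δ / 2 / d) (by positivity)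
  obtain ⟨N₅, hl5⟩ := log_pow_le (C + T + 1) δ hδ
  obtain ⟨N₄, hl4⟩ := log_ge (3 + (d + 1) + 2 ^ (k * d + 3))
  obtain ⟨N₆, hl6⟩ := log_pow_le (U + 2) 1 one_pos
  obtain ⟨N₇, hl7⟩ := log_pow_le (B + W + 2) (δ / 2) (by positivity)
  obtain ⟨N₈, hVz⟩ := Pool.Agent.H373R2.T7.Vz_inv_small (B + W + 2)
  refine ⟨N₁ + N₂ + N₃ + N₄ + N₅ + N₆ + N₇ + N₈ + 3, fun N hN => ?_⟩
  have hl2 := hl2 N (by omega)
  have hl3 := hl3 N (by omega)
  have hl4 := hl4 N (by omega)
  have hl5 := hl5 N (by omega)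
  have hl6 := hl6 N (by omega)
  have hl7 := hl7 N (by omega)
  have hin := hin N (by omega)
  have hVz := hVz N (by omega)
  have hN2 : 2 ≤ N := by omega
  have hN0 : (0 : ℝ) < N := by exact_mod_cast (by omega : 0 < N)
  have hN1 : (1 : ℝ) ≤ N := by exact_mod_cast (by omega : 1 ≤ N)
  obtain ⟨L, hL⟩ : ∃ L, L = Real.log (N : ℝ) := ⟨_, rfl⟩
  rw [← hL] at hl2 hl3 hl4 hl5 hl6 hl7 hin hVz ⊢
  have q1 : (0 : ℝ) ≤ 2 ^ (k * d + 3) := by positivity
  have hL3 : 3 ≤ L := by linarith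
  have hLd : (d : ℝ) + 1 ≤ L := by linarith
  have hL2 : (2 : ℝ) ^ (k * d + 3) ≤ L := by linarith
  have hL1 : 1 ≤ L := by linarith
  have hL0 : 0 < L := by linarith
  obtain ⟨z, hz⟩ : ∃ z : ℕ, z = ⌈L ^ (B + W + 1)⌉₊ := ⟨_, rfl⟩
  have hz1 : L ^ (B + W + 1) ≤ z := by rw [hz]; exact Nat.le_ceil _
  have hz2 : (z : ℝ) ≤ L ^ (B + W + 1) + 1 := by rw [hz]; exact (Nat.ceil_lt_add_one (by positivity)).le
  have hzB : L ^ B ≤ z := (pow_le_pow_right₀ hL1 (by omega)).trans hz1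
  have hzE : (z : ℝ) ≤ L ^ (B + W + 2) := by
    refine hz2.trans ?_
    rw [pow_succ L (B + W + 1)]
    have : (1 : ℝ) ≤ L ^ (B + W + 1) := one_le_pow₀ hL1
    nlinarith
  have hzone : 1 ≤ z := by
    have h1 : (1 : ℝ) ≤ z := (one_le_pow₀ hL1).trans hz1
    exact_mod_cast h1
  obtain ⟨Ex, hE1, hE2⟩ := hin z hzB hzE
  refine ⟨Ex, hE1.trans ?_, fun a ha haE htop => ?_⟩
  · apply div_le_div_of_nonneg_left (by positivity) (by positivity)
    exact pow_le_pow_right₀ hL1 (by omega)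
  have hall := hE2 a ha haE
  have ha1 : ∀ i, 1 ≤ a i ∧ a i ≤ N := fun i => mem_Icc.1 (Fintype.mem_piFinset.1 ha i)
  unfold Good
  obtain ⟨M, hM⟩ : ∃ M, M = top a := ⟨_, rfl⟩
  rw [← hM] at htop ⊢
  have hMN : M ≤ N := by rw [hM]; exact top_le a fun i => (ha1 i).2
  have hMNr : (M : ℝ) ≤ N := by exact_mod_cast hMN
  have hML : L ≤ M := by
    refine le_trans ?_ htop
    rw [le_div_iff₀ (by positivity)]
    rw [Real.rpow_one] at hl6
    calc L * L ^ (U + 1) = L ^ (U + 2) := by ring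
      _ ≤ N := hl6
  have hM0 : (0 : ℝ) < M := by linarith
  have hlM : 0 < Real.log M := Real.log_pos (by linarith)
  have hlML : Real.log M ≤ L := by rw [hL]; exact Real.log_le_log hM0 hMNr
  have hMε : (N : ℝ) ^ (1 - ε) ≤ M := by
    refine le_trans ?_ htop
    rw [le_div_iff₀ (by positivity)]
    calc (N : ℝ) ^ (1 - ε) * L ^ (U + 1) ≤ (N : ℝ) ^ (1 - ε) * (N : ℝ) ^ ε := mul_le_mul_of_nonneg_left hl2 (by positivity)
      _ = N := by
        rw [← Real.rpow_add hN0]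
        simp
  have hlM2 : L / 2 ≤ Real.log M := by
    have h1 : Real.log ((N : ℝ) ^ (1 - ε)) ≤ Real.log M := Real.log_le_log (by positivity) hMε
    rw [Real.log_rpow hN0, ← hL] at h1
    nlinarith
  refine ⟨z, ?_, ?_, fun f hf => ?_⟩
  · calc Real.log M ^ W ≤ L ^ W := pow_le_pow_left₀ hlM.le hlML W
      _ ≤ L ^ (B + W + 1) := pow_le_pow_right₀ hL1 (by omega)
      _ ≤ z := hz1
  · calc (z : ℝ) ≤ L ^ (B + W + 2) := hzE
      _ ≤ (N : ℝ) ^ (δ / 2) := hl7
      _ ≤ (N : ℝ) ^ ((1 - ε) * δ) := by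
        apply Real.rpow_le_rpow_of_exponent_le hN1
        nlinarith
      _ = ((N : ℝ) ^ (1 - ε)) ^ δ := by rw [Real.rpow_mul hN0.le]
      _ ≤ (M : ℝ) ^ δ := Real.rpow_le_rpow (by positivity) hMε hδ.le
  have hf' : ∀ i, 1 ≤ (f i).natDegree ∧ (f i).natDegree ≤ d ∧ ∀ j, |(((f i).coeff j : ℤ) : ℝ)| ≤ L ^ T := fun i =>
    ⟨(hf i).1, (hf i).2.1, fun j => ((hf i).2.2 j).trans (pow_le_pow_left₀ hlM.le hlML T)⟩
  obtain ⟨hlow, hmain⟩ := hall f hf'
  rw [← dens_eq] at hlow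
  simp only [← dens_eq, ← count_eq] at hmain
  obtain ⟨S, hS⟩ : ∃ S, S = dens f a z := ⟨_, rfl⟩
  have hS0 : 0 ≤ S := by rw [hS]; exact dens_nonneg f a z
  have hS1 : S ≤ L ^ (k + 1) := by
    rw [hS]
    refine (dens_le f a z).trans ?_
    exact pow_le_pow_left₀ (inv_pos.2 (Pool.Agent.H373R2.T7.Vz_pos z)).le (hVz z hzone hzE) _
  rw [← hS] at hlow hmain ⊢
  refine ⟨fun hfix => ?_, fun y y' hw => ?_⟩
  · have h1 := hlow (fun p hp => by
      obtain ⟨m, hm⟩ := hfix p hp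
      refine ⟨m, ?_⟩
      rw [Pool.Agent.Run7.h18.MK.gP_eval]
      exact hm)
    refine le_trans ?_ h1
    apply div_le_div_of_nonneg_left zero_le_one (by positivity)
    calc L ^ (k * d + 2) ≤ (L / 2) ^ (k * d + 3) := by
          rw [div_pow, le_div_iff₀ (by positivity), pow_succ L (k * d + 2)]
          exact mul_le_mul_of_nonneg_left hL2 (by positivity)
      _ ≤ _ := pow_le_pow_left₀ (by positivity) hlM2 _
  obtain ⟨hyy, hw⟩ := hw
  -- the size of the window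
  have hw1 : ∀ i, (N : ℝ) ^ (1 / 3 + δ / 2) ≤ (y' : ℝ) ^ (f i).natDegree := by
    intro i
    refine le_trans ?_ (hw i).1
    have e : (N : ℝ) ^ (1 / 3 + δ / 2) = ((N : ℝ) ^ (1 - ε)) ^ (1 / 3 + δ) := by
      rw [← Real.rpow_mul hN0.le]
      congr 1
      linarith
    rw [e]
    exact Real.rpow_le_rpow (by positivity) hMε (by positivity)
  obtain ⟨i₀⟩ : Nonempty (Fin k) := ⟨⟨0, by omega⟩⟩
  have hw2 : ∀ i, (y' : ℝ) ^ (f i).natDegree ≤ (N : ℝ) ^ (1 - δ) := by
    intro i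
    refine (hw i).2.trans ?_
    rcases le_or_gt δ 1 with hd | hd
    · exact Real.rpow_le_rpow hM0.le hMNr (by linarith)
    · exfalso
      have b1 : (M : ℝ) ^ (1 - δ) < 1 := Real.rpow_lt_one_of_one_lt_of_neg (by linarith) (by linarith)
      have b2 : (1 : ℝ) ≤ (N : ℝ) ^ (1 / 3 + δ / 2) := Real.one_le_rpow hN1 (by positivity)
      have b3 := hw1 i
      have b4 := (hw i).2
      linarith
  have hw3 : ∀ i, (y' : ℝ) ^ (f i).natDegree * L ^ (C + T + 1) ≤ N := by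
    intro i
    calc (y' : ℝ) ^ (f i).natDegree * L ^ (C + T + 1) ≤ (N : ℝ) ^ (1 - δ) * (N : ℝ) ^ δ :=
          mul_le_mul (hw2 i) hl5 (by positivity) (by positivity)
      _ = N := by
        rw [← Real.rpow_add hN0]
        simp
  have hy1 : 1 ≤ y' := by
    rcases Nat.eq_zero_or_pos y' with h | h
    · exfalso
      have h1 := hw1 i₀
      rw [h, Nat.cast_zero, zero_pow (by have := (hf i₀).1; omega)] at h1
      have : (0 : ℝ) < (N : ℝ) ^ (1 / 3 + δ / 2) := by positivity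
      linarith
    · exact h
  have hy1r : (1 : ℝ) ≤ y' := by exact_mod_cast hy1
  have hy0 : (0 : ℝ) < y' := by linarith
  have hyN : (y' : ℝ) ≤ N := by
    calc (y' : ℝ) ≤ (y' : ℝ) ^ (f i₀).natDegree := le_self_pow₀ hy1r (by have := (hf i₀).1; omega)
      _ ≤ (y' : ℝ) ^ (f i₀).natDegree * L ^ (C + T + 1) := le_mul_of_one_le_right (by positivity) (one_le_pow₀ hL1)
      _ ≤ N := hw3 i₀
  have hCC : (L : ℝ) ^ C ≤ (N : ℝ) ^ (δ / 2) := by
    calc L ^ C ≤ L ^ (C + 2 * (k + 1) + V) := pow_le_pow_right₀ hL1 (by omega)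
      _ ≤ (N : ℝ) ^ (δ / 2 / d) := hl3
      _ ≤ _ := by
        apply Real.rpow_le_rpow_of_exponent_le hN1
        exact div_le_self (by positivity) hd0
  have hlarge : ∀ i, (N : ℝ) ^ (1 / 3 : ℝ) * L ^ C ≤ (y' : ℝ) ^ (f i).natDegree := by
    intro i
    refine le_trans ?_ (hw1 i)
    rw [Real.rpow_add hN0]
    exact mul_le_mul_of_nonneg_left hCC (by positivity)
  have hupper : ∀ (x : ℕ), x ≤ y' → ∀ i, (x : ℝ) ^ (f i).natDegree * L ^ C ≤ N := by
    intro x hx i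
    refine le_trans ?_ (hw3 i)
    have hxr : (x : ℝ) ≤ y' := by exact_mod_cast hx
    apply mul_le_mul (pow_le_pow_left₀ (Nat.cast_nonneg x) hxr _) (pow_le_pow_right₀ hL1 (by omega)) (by positivity)
      (by positivity)
  obtain ⟨hpos, hform⟩ := hmain y' (fun i => ⟨hlarge i, hupper y' le_rfl i⟩)
  refine ⟨hpos, ?_⟩
  -- the trivial bound
  have hlog2 : ∀ t : ℝ, 1 ≤ t → t ≤ 2 * N → Real.log t ≤ L ^ 2 := by
    intro t ht1 ht2
    calc Real.log t ≤ Real.log (2 * N) := Real.log_le_log (by linarith) ht2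
      _ = Real.log 2 + L := by rw [Real.log_mul (by norm_num) hN0.ne', hL]
      _ ≤ 1 + L := by linarith [Real.log_two_lt_d9]
      _ ≤ L ^ 2 := by nlinarith
  have htriv : ∀ x : ℕ, x ≤ y' → count f a 0 x ≤ x * L ^ (2 * (k + 1)) := by
    intro x hx
    have h1 := count_le f a x (L ^ 2) (by positivity) (fun m hm => by
      rw [mem_Icc] at hm
      apply hlog2
      · exact_mod_cast hm.1
      · have : (m : ℝ) ≤ y' := by exact_mod_cast hm.2.trans hx
        linarith) (fun i m hm hm1 => by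
      rw [mem_Icc] at hm
      apply hlog2
      · exact_mod_cast hm1
      · push_cast
        have c1 := eval_le (f i) (L ^ T) (hf' i).2.2 m hm.1
        have c2 : ((f i).natDegree + 1 : ℝ) ≤ L := by
          have : ((f i).natDegree : ℝ) ≤ d := by exact_mod_cast (hf i).2.1
          linarith
        have c3 : (m : ℝ) ^ (f i).natDegree ≤ (y' : ℝ) ^ (f i).natDegree := by
          apply pow_le_pow_left₀ (Nat.cast_nonneg m)
          exact_mod_cast hm.2.trans hx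
        have c4 : ((f i).natDegree + 1 : ℝ) * L ^ T * (m : ℝ) ^ (f i).natDegree ≤
            (y' : ℝ) ^ (f i).natDegree * L ^ (C + T + 1) := by
          calc ((f i).natDegree + 1 : ℝ) * L ^ T * (m : ℝ) ^ (f i).natDegree ≤
              L * L ^ T * (y' : ℝ) ^ (f i).natDegree := by
                apply mul_le_mul _ c3 (by positivity) (by positivity)
                exact mul_le_mul_of_nonneg_right c2 (by positivity)
            _ = (y' : ℝ) ^ (f i).natDegree * L ^ (T + 1) := by ring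
            _ ≤ _ := by
                apply mul_le_mul_of_nonneg_left _ (by positivity)
                exact pow_le_pow_right₀ hL1 (by omega)
        have c5 := hw3 i
        have c6 : ((a i : ℕ) : ℝ) ≤ N := by exact_mod_cast (ha1 i).2
        linarith)
    rwa [← pow_mul] at h1
  -- one initial window
  have one : ∀ x : ℕ, x ≤ y' → |count f a 0 x - x * S| ≤ y' / L ^ V := by
    intro x hx
    have hxr : (x : ℝ) ≤ y' := by exact_mod_cast hx
    have hx0 : (0 : ℝ) ≤ x := Nat.cast_nonneg x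
    by_cases hlw : ∀ i, (N : ℝ) ^ (1 / 3 : ℝ) * L ^ C ≤ (x : ℝ) ^ (f i).natDegree
    · obtain ⟨-, h2⟩ := hmain x (fun i => ⟨hlw i, hupper x hx i⟩)
      refine h2.trans ?_
      exact div_le_div_of_nonneg_right hxr (by positivity)
    · push Not at hlw
      obtain ⟨i, hi⟩ := hlw
      -- `x` is much smaller than `y'`
      obtain ⟨e, he⟩ : ∃ e, e = (f i).natDegree := ⟨_, rfl⟩
      have he1 : 1 ≤ e := by rw [he]; exact (hf i).1
      have hed : (e : ℝ) ≤ d := by rw [he]; exact_mod_cast (hf i).2.1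
      have he0 : (0 : ℝ) < e := by exact_mod_cast (by omega : 0 < e)
      have b0 := hw1 i
      rw [← he] at hi b0
      have b1 : (x : ℝ) * L ^ (2 * (k + 1) + V) ≤ y' := by
        apply le_of_pow_le_pow_left₀ (by omega : e ≠ 0) hy0.le
        rw [mul_pow]
        refine le_trans ?_ b0
        have b2 : (L ^ (2 * (k + 1) + V)) ^ e * L ^ C ≤ (N : ℝ) ^ (δ / 2) := by
          calc (L ^ (2 * (k + 1) + V)) ^ e * L ^ C ≤ (L ^ (2 * (k + 1) + V)) ^ e * (L ^ C) ^ e := by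
                apply mul_le_mul_of_nonneg_left _ (by positivity)
                exact le_self_pow₀ (one_le_pow₀ hL1) (by omega)
            _ = (L ^ (C + 2 * (k + 1) + V)) ^ e := by
                rw [← mul_pow]
                congr 1
                ring
            _ ≤ ((N : ℝ) ^ (δ / 2 / d)) ^ e := pow_le_pow_left₀ (by positivity) hl3 _
            _ = (N : ℝ) ^ (δ / 2 / d * e) := by rw [← Real.rpow_natCast, ← Real.rpow_mul hN0.le]
            _ ≤ _ := by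
                apply Real.rpow_le_rpow_of_exponent_le hN1
                calc δ / 2 / d * e = δ / 2 * (e / d) := by ring
                  _ ≤ δ / 2 * 1 := by
                    apply mul_le_mul_of_nonneg_left _ (by positivity)
                    rw [div_le_one (by linarith)]
                    exact hed
                  _ = _ := mul_one _
        calc (x : ℝ) ^ e * (L ^ (2 * (k + 1) + V)) ^ e ≤
            ((N : ℝ) ^ (1 / 3 : ℝ) * L ^ C) * (L ^ (2 * (k + 1) + V)) ^ e :=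
              mul_le_mul_of_nonneg_right hi.le (by positivity)
          _ = (N : ℝ) ^ (1 / 3 : ℝ) * ((L ^ (2 * (k + 1) + V)) ^ e * L ^ C) := by ring
          _ ≤ (N : ℝ) ^ (1 / 3 : ℝ) * (N : ℝ) ^ (δ / 2) := mul_le_mul_of_nonneg_left b2 (by positivity)
          _ = _ := by rw [Real.rpow_add hN0]
      have b3 := htriv x hx
      have b4 := count_nonneg f a 0 x
      have b5 : (x : ℝ) * S ≤ x * L ^ (2 * (k + 1)) := by
        apply mul_le_mul_of_nonneg_left _ hx0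
        refine hS1.trans ?_
        exact pow_le_pow_right₀ hL1 (by omega)
      have b6 : 0 ≤ (x : ℝ) * S := mul_nonneg hx0 hS0
      have b7 : (x : ℝ) * L ^ (2 * (k + 1)) ≤ y' / L ^ V := by
        rw [le_div_iff₀ (by positivity)]
        calc (x : ℝ) * L ^ (2 * (k + 1)) * L ^ V = x * L ^ (2 * (k + 1) + V) := by ring
          _ ≤ _ := b1
      rw [abs_le]
      constructor <;> linarith
  have c1 := one y' le_rfl
  have c2 := one y hyy
  rw [count_sub f a hyy]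
  have hyr : (y : ℝ) ≤ y' := by exact_mod_cast hyy
  have hyr0 : (0 : ℝ) ≤ y := Nat.cast_nonneg y
  have c4 : |count f a 0 y' - count f a 0 y - S * ((y' : ℝ) - y)| ≤ 2 * (y' / L ^ V) := by
    have d1 := abs_le.1 c1
    have d2 := abs_le.1 c2
    rw [abs_le]
    constructor
    · linarith [d1.1, d1.2, d2.1, d2.2]
    · linarith [d1.1, d1.2, d2.1, d2.2]
  refine c4.trans ?_
  calc 2 * ((y' : ℝ) / L ^ V) ≤ L * (y' / L ^ V) := mul_le_mul_of_nonneg_right (by linarith) (by positivity)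
    _ = y' / L ^ (U + W) := by
      rw [hV, pow_succ]
      field_simp
    _ ≤ y' / L ^ W := by
      apply div_le_div_of_nonneg_left hy0.le (by positivity)
      exact pow_le_pow_right₀ hL1 (by omega)
    _ ≤ _ := by
      apply div_le_div_of_nonneg_left hy0.le (by positivity)
      exact pow_le_pow_left₀ hlM.le hlML W

theorem sparse (k d T : ℕ) (hk : 1 ≤ k) (hd : 1 ≤ d) (δ : ℝ) (hδ : 0 < δ) (W : ℕ) :
    Sparse k (fun a => Good d T W δ a) := by
  classical
  intro U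
  obtain ⟨N₁, h1⟩ := few k d T hk hd δ hδ W U
  obtain ⟨N₃, h3⟩ := log_ge 4
  refine ⟨N₁ + N₃ + 3, fun N hN E hE => ?_⟩
  obtain ⟨Ex, hE1, hE2⟩ := h1 N (by omega)
  have h3 := h3 N (by omega)
  have hN2 : 2 ≤ N := by omega
  have hN0 : (0 : ℝ) < N := by exact_mod_cast (by omega : 0 < N)
  obtain ⟨L, hL⟩ : ∃ L, L = Real.log (N : ℝ) := ⟨_, rfl⟩
  rw [← hL] at hE1 hE2 h3 ⊢
  have hL1 : 1 ≤ L := by linarith
  have hL0 : 0 < L := by linarith
  obtain ⟨n, hn⟩ : ∃ n : ℕ, n = ⌊(N : ℝ) / L ^ (U + 1)⌋₊ := ⟨_, rfl⟩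
  have hnr : (n : ℝ) ≤ N / L ^ (U + 1) := by rw [hn]; exact Nat.floor_le (by positivity)
  have hsub : E ⊆ Ex ∪ Fintype.piFinset (fun _ : Fin k => Icc 1 n) := by
    intro a ha
    obtain ⟨g1, g2⟩ := hE a ha
    rw [mem_union]
    by_contra hcon
    push Not at hcon
    obtain ⟨c1, c2⟩ := hcon
    have hmem : a ∈ Fintype.piFinset (fun _ : Fin k => Icc 1 N) := Fintype.mem_piFinset.2 fun i => mem_Icc.2 (g1 i)
    apply g2
    apply hE2 a hmem c1
    by_contra hlt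
    push Not at hlt
    apply c2
    rw [Fintype.mem_piFinset]
    intro i
    rw [mem_Icc]
    refine ⟨(g1 i).1, ?_⟩
    rw [hn]
    apply Nat.le_floor
    refine le_trans ?_ hlt.le
    exact_mod_cast le_top a i
  have hc := (card_le_card hsub).trans (card_union_le _ _)
  have hc1 : ((Fintype.piFinset (fun _ : Fin k => Icc 1 n)).card : ℝ) ≤ N ^ k / L ^ (U + 1) := by
    rw [Fintype.card_piFinset, prod_const, card_univ, Fintype.card_fin, Nat.card_Icc, Nat.add_sub_cancel, Nat.cast_pow]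
    calc (n : ℝ) ^ k ≤ (N / L ^ (U + 1)) ^ k := pow_le_pow_left₀ (Nat.cast_nonneg n) hnr k
      _ = (N : ℝ) ^ k / (L ^ (U + 1)) ^ k := div_pow _ _ _
      _ ≤ N ^ k / L ^ (U + 1) := by
        apply div_le_div_of_nonneg_left (by positivity) (by positivity)
        exact le_self_pow₀ (one_le_pow₀ hL1) (by omega)
  have hcr : (E.card : ℝ) ≤ Ex.card + ((Fintype.piFinset (fun _ : Fin k => Icc 1 n)).card : ℝ) := by
    exact_mod_cast hc
  calc (E.card : ℝ) ≤ 2 * (N ^ k / L ^ (U + 1)) := by linarith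
    _ ≤ L * (N ^ k / L ^ (U + 1)) := mul_le_mul_of_nonneg_right (by linarith) (by positivity)
    _ = _ := by
      rw [pow_succ L U]
      field_simp

end Run7.h251.SY
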